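import Pool.Agent.Run7.h285.G.Stm
import Pool.Agent.Run7.h382.S.FLS

/-!
# Piece G:FL of the project GEN (helper285): the fundamental lemma in a window for systems of polynomials

Adaptation of `Pool/Agent/Run7/h382/S/FLS.lean` (helper382) from `n² + a_l` to `f_l(n) + a_l`.
-/

set_option autoImplicit false

namespace Run7.h882.G

open Finset Filter Polynomial
open Run7.h285.S (Bx uu vv ll gg)
open Run7.h285.G
open Run7.h382.S (shift_card)
open Pool.Agent.H373R2.T7 (pz Vz lamz mem_pz Vz_ge Vz_pos)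
open Pool.Agent.TH892.SW (fl_set)
open Pool.Agent.W41 (JJ JJ_small)

theorem eval_cast (p : ℕ) (g : ℤ[X]) (x : ℤ) :
    ((g.eval x : ℤ) : ZMod p) = (g.map (Int.castRingHom (ZMod p))).eval (x : ZMod p) := by
  have h := Polynomial.eval_intCast_map (Int.castRingHom (ZMod p)) g x
  rw [h]
  simp

/-- divisibility as an equation modulo `p` -/
lemma dvd_iff_zmod {k : ℕ} (f : Fin k → ℤ[X]) (a : Fin k → ℤ) (p : ℕ) (A : ℤ) (x : ℕ) :
    (∃ l, (p : ℤ) ∣ (f l).eval (A + x) + a l) ↔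
      ∃ l, ((f l).map (Int.castRingHom (ZMod p))).eval ((A : ZMod p) + (x : ZMod p)) +
        ((a l : ℤ) : ZMod p) = 0 := by
  refine exists_congr fun l => ?_
  rw [← ZMod.intCast_zmod_eq_zero_iff_dvd, Int.cast_add, eval_cast]
  push_cast
  exact Iff.rfl

open Classical in
lemma nu_shift {k : ℕ} (f : Fin k → ℤ[X]) (a : Fin k → ℤ) (m p : ℕ) (hp : p.Prime) :
    #((range p).filter (fun x : ℕ => ∃ l, (p : ℤ) ∣ (f l).eval ((m : ℤ) + x) + a l)) = nu f a p := by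
  have : Fact p.Prime := ⟨hp⟩
  have h1 := shift_card p (fun y => ∃ l, ((f l).map (Int.castRingHom (ZMod p))).eval y + ((a l : ℤ) : ZMod p) = 0)
    (((m : ℕ) : ℤ) : ZMod p)
  have h2 := shift_card p (fun y => ∃ l, ((f l).map (Int.castRingHom (ZMod p))).eval y + ((a l : ℤ) : ZMod p) = 0)
    (((0 : ℤ)) : ZMod p)
  have e1 : (range p).filter (fun x : ℕ => ∃ l, (p : ℤ) ∣ (f l).eval ((m : ℤ) + x) + a l) =
      (range p).filter (fun x : ℕ => ∃ l, ((f l).map (Int.castRingHom (ZMod p))).eval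
        ((((m : ℕ) : ℤ) : ZMod p) + (x : ZMod p)) + ((a l : ℤ) : ZMod p) = 0) :=
    filter_congr fun x _ => dvd_iff_zmod f a p _ x
  have e2 : nu f a p = #((range p).filter (fun x : ℕ => ∃ l, ((f l).map (Int.castRingHom (ZMod p))).eval
        ((((0 : ℤ)) : ZMod p) + (x : ZMod p)) + ((a l : ℤ) : ZMod p) = 0)) := by
    unfold nu
    congr 1
    apply filter_congr
    intro x _
    rw [← dvd_iff_zmod f a p 0 x, zero_add]
  rw [e1, e2, h1, h2]

/-- the number of roots modulo `p` is at most the degree, unless everything is a root -/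
lemma nu_le {k : ℕ} (f : Fin k → ℤ[X]) (a : Fin k → ℤ) (p : ℕ) (hp : p.Prime) (h : nu f a p < p) :
    nu f a p ≤ ∑ l, (f l).natDegree := by
  classical
  have : Fact p.Prime := ⟨hp⟩
  have h1 : (range p).filter (fun x : ℕ => ∃ l, (p : ℤ) ∣ (f l).eval (x : ℤ) + a l) ⊆
      (univ : Finset (Fin k)).biUnion (fun l => (range p).filter (fun x : ℕ => (p : ℤ) ∣ (f l).eval (x : ℤ) + a l)) := by
    intro x hx
    rw [mem_filter] at hx
    obtain ⟨h2, l, h3⟩ := hx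
    rw [mem_biUnion]
    exact ⟨l, mem_univ _, mem_filter.2 ⟨h2, h3⟩⟩
  have h0 : nu f a p = #((range p).filter (fun x : ℕ => ∃ l, (p : ℤ) ∣ (f l).eval (x : ℤ) + a l)) := by
    unfold nu; congr
  have h2 : ∀ l : Fin k, #((range p).filter (fun x : ℕ => (p : ℤ) ∣ (f l).eval (x : ℤ) + a l)) ≤ (f l).natDegree := by
    intro l
    set G : (ZMod p)[X] := (f l + C (a l)).map (Int.castRingHom (ZMod p)) with hG
    have hGe : ∀ x : ℕ, (p : ℤ) ∣ (f l).eval (x : ℤ) + a l ↔ G.eval (x : ZMod p) = 0 := by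
      intro x
      rw [← ZMod.intCast_zmod_eq_zero_iff_dvd, hG]
      have h5 := eval_cast p (f l + C (a l)) (x : ℤ)
      rw [eval_add, eval_C, Int.cast_natCast] at h5
      rw [h5]
    have hG0 : G ≠ 0 := by
      intro h6
      have h7 : (range p).filter (fun x : ℕ => ∃ l, (p : ℤ) ∣ (f l).eval (x : ℤ) + a l) = range p := by
        apply filter_true_of_mem
        intro x _
        exact ⟨l, (hGe x).2 (by rw [h6, eval_zero])⟩
      rw [h0, h7, card_range] at h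
      exact lt_irrefl _ h
    have h8 : #((range p).filter (fun x : ℕ => (p : ℤ) ∣ (f l).eval (x : ℤ) + a l)) ≤ #(G.roots.toFinset) := by
      apply card_le_card_of_injOn (fun x : ℕ => (x : ZMod p))
      · intro x hx
        rw [mem_coe, mem_filter] at hx
        rw [mem_coe, Multiset.mem_toFinset, mem_roots hG0, IsRoot.def]
        exact (hGe x).1 hx.2
      · intro x hx y hy hxy
        rw [mem_coe, mem_filter, mem_range] at hx hy
        have h9 : (x : ZMod p) = (y : ZMod p) := hxy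
        rw [ZMod.natCast_eq_natCast_iff] at h9
        exact Nat.ModEq.eq_of_lt_of_lt h9 hx.1 hy.1
    refine h8.trans ((Multiset.toFinset_card_le _).trans ((card_roots' _).trans ?_))
    rw [hG]
    refine (natDegree_map_le).trans ?_
    rw [natDegree_add_C]
  rw [h0]
  exact (card_le_card h1).trans (card_biUnion_le.trans (sum_le_sum fun l _ => h2 l))

/-- one factor -/
lemma fac_ge (k p v : ℕ) (hp : 2 ≤ p) (hv1 : v < p) (hv2 : v ≤ k) :
    (1 - 1 / (p : ℝ)) ^ (4 * k ^ 2 + 2 * k) ≤ 1 - (v : ℝ) / p := by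
  have hpr : (2 : ℝ) ≤ p := by exact_mod_cast hp
  have hp0 : (0 : ℝ) < p := by linarith
  have hp1 : (0 : ℝ) < (p : ℝ) - 1 := by linarith
  have hx : 1 - 1 / (p : ℝ) = (1 + 1 / ((p : ℝ) - 1))⁻¹ := by
    field_simp
    ring
  have hb : ∀ D : ℕ, (1 - 1 / (p : ℝ)) ^ D ≤ (1 + D / ((p : ℝ) - 1))⁻¹ := by
    intro D
    rw [hx, inv_pow]
    apply inv_anti₀
    · positivity
    · have h0 : 0 < 1 / ((p : ℝ) - 1) := by positivity
      have h := one_add_mul_le_pow (a := 1 / ((p : ℝ) - 1)) (by linarith) D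
      rw [mul_one_div] at h
      exact h
  have h01 : 0 ≤ 1 - 1 / (p : ℝ) := by
    rw [sub_nonneg, div_le_one hp0]; linarith
  have h11 : 1 - 1 / (p : ℝ) ≤ 1 := by
    have : 0 < 1 / (p : ℝ) := by positivity
    linarith
  rcases Nat.lt_or_ge (2 * k) p with h | h
  · have h1 : (1 - 1 / (p : ℝ)) ^ (4 * k ^ 2 + 2 * k) ≤ (1 - 1 / (p : ℝ)) ^ (2 * k) :=
      pow_le_pow_of_le_one h01 h11 (by omega)
    refine h1.trans ((hb (2 * k)).trans ?_)
    have hkr : 2 * (k : ℝ) + 1 ≤ p := by exact_mod_cast h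
    have hvr : (v : ℝ) ≤ k := by exact_mod_cast hv2
    have hk0 : (0 : ℝ) ≤ k := Nat.cast_nonneg _
    have h2 : 1 - (k : ℝ) / p ≤ 1 - (v : ℝ) / p := by
      have : (v : ℝ) / p ≤ k / p := div_le_div_of_nonneg_right hvr hp0.le
      linarith
    refine le_trans ?_ h2
    rw [show (1 : ℝ) + ((2 * k : ℕ) : ℝ) / ((p : ℝ) - 1) = ((p : ℝ) - 1 + 2 * k) / ((p : ℝ) - 1) by
      push_cast; field_simp, inv_div, show 1 - (k : ℝ) / p = (p - k) / p by field_simp,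
      div_le_div_iff₀ (by linarith) hp0]
    nlinarith
  · refine (hb _).trans ?_
    have hvr : (v : ℝ) + 1 ≤ p := by exact_mod_cast hv1
    have h2 : 1 / (p : ℝ) ≤ 1 - (v : ℝ) / p := by
      rw [one_sub_div hp0.ne']
      exact div_le_div_of_nonneg_right (by linarith) hp0.le
    refine le_trans ?_ h2
    rw [one_div]
    apply inv_anti₀ hp0
    have hkr : (p : ℝ) ≤ 2 * k := by exact_mod_cast h
    rw [← sub_le_iff_le_add', le_div_iff₀ hp1]
    push_cast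
    nlinarith

lemma prod_eq {k : ℕ} (f : Fin k → ℤ[X]) (a : Fin k → ℤ) (w : ℕ) :
    ∏ p ∈ pz w, (1 - (nu f a p : ℝ) / p) = Vz w ^ k * SS f a w := by
  unfold SS Vz
  have h1 : pz w = (range (w + 1)).filter Nat.Prime := by
    ext p
    rw [mem_pz, mem_filter, mem_range, Nat.lt_succ_iff]
  rw [← h1, ← prod_pow, ← prod_mul_distrib]
  refine prod_congr rfl fun p hp => ?_
  have hp2 : (2 : ℝ) ≤ p := by exact_mod_cast (mem_pz.1 hp).2.two_le
  have h2 : (1 - 1 / (p : ℝ)) ≠ 0 := by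
    have : 1 / (p : ℝ) ≤ 1 / 2 := one_div_le_one_div_of_le (by norm_num) hp2
    linarith
  rw [mul_div_cancel₀ _ (pow_ne_zero k h2)]

lemma prod_ge {k : ℕ} (f : Fin k → ℤ[X]) (a : Fin k → ℤ) (ha : Adm f a) (w : ℕ) (hw : 1 ≤ w) :
    1 / (w : ℝ) ^ (4 * (∑ l, (f l).natDegree) ^ 2 + 2 * (∑ l, (f l).natDegree)) ≤ ∏ p ∈ pz w, (1 - (nu f a p : ℝ) / p) := by
  have h1 : (1 / (w : ℝ)) ^ (4 * (∑ l, (f l).natDegree) ^ 2 + 2 * (∑ l, (f l).natDegree)) ≤ Vz w ^ (4 * (∑ l, (f l).natDegree) ^ 2 + 2 * (∑ l, (f l).natDegree)) :=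
    pow_le_pow_left₀ (by positivity) (Vz_ge w hw) _
  rw [one_div_pow] at h1
  refine h1.trans ?_
  unfold Vz
  rw [← prod_pow]
  apply Finset.prod_le_prod
  · intro p hp
    have hp2 : (2 : ℝ) ≤ p := by exact_mod_cast (mem_pz.1 hp).2.two_le
    have : 1 / (p : ℝ) ≤ 1 / 2 := one_div_le_one_div_of_le (by norm_num) hp2
    exact pow_nonneg (by linarith) _
  · intro p hp
    have hpp := (mem_pz.1 hp).2
    exact fac_ge _ p _ hpp.two_le (ha p hpp) (nu_le f a p hpp (ha p hpp))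

open Classical in
lemma lam_win {k : ℕ} (f : Fin k → ℤ[X]) (w : ℕ) (a : Fin k → ℤ) (m H : ℕ) :
    ∑ n ∈ Ioc m (m + H), pr f (fun _ => ll w) a n = (Vz w ^ k)⁻¹ *
      ((((Icc 1 H).filter (fun t : ℕ => ∀ p ∈ pz w, ¬ ∃ l, (p : ℤ) ∣ (f l).eval ((m : ℤ) + t) + a l)).card : ℕ) : ℝ) := by
  have h1 : ∑ i ∈ Ioc m (m + H), pr f (fun _ => ll w) a i =
      ∑ t ∈ Icc 1 H, pr f (fun _ => ll w) a (m + t) := by
    refine sum_nbij' (fun i => i - m) (fun t => m + t) ?_ ?_ ?_ ?_ ?_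
    · intro i hi
      rw [mem_Ioc] at hi; rw [mem_Icc]; omega
    · intro t ht
      rw [mem_Icc] at ht; rw [mem_Ioc]; omega
    · intro i hi
      rw [mem_Ioc] at hi; omega
    · intro t ht
      omega
    · intro i hi
      rw [mem_Ioc] at hi
      rw [show m + (i - m) = i by omega]
  rw [h1, card_filter]
  push_cast
  rw [mul_sum]
  refine sum_congr rfl fun t _ => ?_
  unfold pr ll lamz
  have h3 : ∀ (l : Fin k) (p : ℕ), (p ∣ ((f l).eval (((m + t : ℕ) : ℤ)) + a l).natAbs) ↔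
      ((p : ℤ) ∣ (f l).eval ((m : ℤ) + t) + a l) := by
    intro l p
    rw [← Int.natCast_dvd]
    push_cast
    exact Iff.rfl
  by_cases h4 : ∀ p ∈ pz w, ¬ ∃ l, (p : ℤ) ∣ (f l).eval ((m : ℤ) + t) + a l
  · rw [if_pos h4, mul_one]
    have h5 : ∀ l : Fin k, (if ∀ p ∈ pz w, ¬ p ∣ ((f l).eval (((m + t : ℕ) : ℤ)) + a l).natAbs then (Vz w)⁻¹ else 0) = (Vz w)⁻¹ := by
      intro l
      rw [if_pos]
      intro p hp hd
      exact h4 p hp ⟨l, (h3 l p).1 hd⟩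
    rw [prod_congr rfl fun l _ => h5 l, prod_const, card_univ, Fintype.card_fin, inv_pow]
  · rw [if_neg h4, mul_zero]
    push Not at h4
    obtain ⟨p, hp, l, hd⟩ := h4
    apply prod_eq_zero (mem_univ l)
    show (if ∀ p ∈ pz w, ¬ p ∣ ((f l).eval (((m + t : ℕ) : ℤ)) + a l).natAbs then (Vz w)⁻¹ else 0) = 0
    rw [if_neg]
    intro h5
    exact h5 p hp ((h3 l p).2 hd)

theorem gfl {k : ℕ} (f : Fin k → ℤ[X]) : S_GFL f := by
  classical
  obtain ⟨C0, K0, hC0, hK0, hfl⟩ := fl_set (∑ l, (f l).natDegree)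
  set D : ℕ := 4 * (∑ l, (f l).natDegree) ^ 2 + 2 * (∑ l, (f l).natDegree) with hD
  refine ⟨4 * C0 + 4 + D, K0 + 3, by omega, by omega, fun b hb w hw H hH a m ha => ?_⟩
  have hwp := Vz_pos w
  have hb1 : 1 ≤ b := by omega
  have hfl1 := hfl b (by omega) w (by omega) H (pz w) (fun p x => ∃ l, (p : ℤ) ∣ (f l).eval ((m : ℤ) + x) + a l) (by
    intro p hp
    rw [mem_pz] at hp
    refine ⟨hp.2, hp.1, ?_⟩
    have h2 := nu_shift f a m p hp.2
    have h3 := nu_le f a p hp.2 (ha p hp.2)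
    rw [← h2] at h3
    convert h3)
  have hVe : ∏ p ∈ pz w, (1 - ((((range p).filter (fun x : ℕ => ∃ l, (p : ℤ) ∣ (f l).eval ((m : ℤ) + x) + a l)).card : ℕ) : ℝ) / p) =
      Vz w ^ k * SS f a w := by
    rw [← prod_eq]
    apply prod_congr rfl
    intro p hp
    rw [nu_shift f a m p (mem_pz.1 hp).2]
  have hmod : ∀ n p : ℕ, (∃ l, (p : ℤ) ∣ (f l).eval ((m : ℤ) + ((n % p : ℕ) : ℤ)) + a l) ↔
      (∃ l, (p : ℤ) ∣ (f l).eval ((m : ℤ) + (n : ℤ)) + a l) := by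
    intro n p
    refine exists_congr fun l => ?_
    have h3 : (f l).eval ((m : ℤ) + ((n % p : ℕ) : ℤ)) + a l ≡ (f l).eval ((m : ℤ) + (n : ℤ)) + a l [ZMOD p] := by
      apply Int.ModEq.add_right
      rw [Int.modEq_iff_dvd]
      refine dvd_trans ?_ (Polynomial.sub_dvd_eval_sub ((m : ℤ) + (n : ℤ)) ((m : ℤ) + ((n % p : ℕ) : ℤ)) (f l))
      rw [add_sub_add_left_eq_sub, ← Int.modEq_iff_dvd, Int.natCast_mod]
      exact Int.mod_modEq _ _
    rw [Int.dvd_iff_emod_eq_zero, Int.dvd_iff_emod_eq_zero, h3]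
  have hset : ((Icc 1 H).filter (fun t : ℕ => ∀ p ∈ pz w, ¬ ∃ l, (p : ℤ) ∣ (f l).eval ((m : ℤ) + t) + a l)) =
      ((Icc 1 H).filter (fun n : ℕ => ∀ p ∈ pz w, ¬ ∃ l, (p : ℤ) ∣ (f l).eval ((m : ℤ) + ((n % p : ℕ) : ℤ)) + a l)) := by
    apply filter_congr
    intro n _
    constructor
    · intro h p hp hd
      exact h p hp ((hmod n p).1 hd)
    · intro h p hp hd
      exact h p hp ((hmod n p).2 hd)
  rw [lam_win, hset]
  set V := Vz w ^ k * SS f a w with hV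
  set cd : ℝ := ((((Icc 1 H).filter (fun n : ℕ => ∀ p ∈ pz w, ¬ ∃ l, (p : ℤ) ∣ (f l).eval ((m : ℤ) + ((n % p : ℕ) : ℤ)) + a l)).card : ℕ) : ℝ)
    with hcd
  have h2 : |cd - H * V| ≤
      (1 / 2 : ℝ) ^ b * (H * V) + ((JJ w : ℝ) + 2) * ((w : ℝ) ^ (2 * (C0 * b)) * (K0 * (w : ℝ) ^ (2 * (C0 * b)))) := by
    rw [← hVe, hcd]
    convert hfl1 using 6 <;> congr!
  have hy1 : (1 : ℝ) ≤ w := by exact_mod_cast (by omega : 1 ≤ w)
  have hy2 : (2 : ℝ) ≤ w := by exact_mod_cast (by omega : 2 ≤ w)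
  have hy0 : (0 : ℝ) < w := by linarith
  have hVlow : 1 / (w : ℝ) ^ D ≤ V := by
    rw [hV, ← prod_eq]; exact prod_ge f a ha w (by omega)
  have hJ : ((JJ w : ℝ) + 2) ≤ w * w := by
    have h3 : ((JJ w : ℝ) + 2) ≤ 2 * w := by exact_mod_cast JJ_small w (by omega)
    nlinarith
  have hK0' : (K0 : ℝ) ≤ w := by exact_mod_cast (by omega : K0 ≤ w)
  have h3 : ((JJ w : ℝ) + 2) * ((w : ℝ) ^ (2 * (C0 * b)) * (K0 * (w : ℝ) ^ (2 * (C0 * b)))) ≤
      (w : ℝ) ^ (4 * (C0 * b) + 3) := by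
    calc ((JJ w : ℝ) + 2) * ((w : ℝ) ^ (2 * (C0 * b)) * (K0 * (w : ℝ) ^ (2 * (C0 * b))))
        ≤ (w * w) * ((w : ℝ) ^ (2 * (C0 * b)) * (w * (w : ℝ) ^ (2 * (C0 * b)))) := by gcongr
      _ = (w : ℝ) ^ (4 * (C0 * b) + 3) := by
          rw [show 4 * (C0 * b) + 3 = 2 * (C0 * b) + 2 * (C0 * b) + 1 + 1 + 1 by ring]
          simp only [pow_succ, pow_add]
          ring
  have h4 : (w : ℝ) ^ (4 * (C0 * b) + 3) ≤ (1 / 2 : ℝ) ^ b * (H * V) := by
    have h5 : (w : ℝ) ^ ((4 * C0 + 4 + D) * b) ≤ H := by exact_mod_cast hH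
    have h6 : (2 : ℝ) ^ b ≤ (w : ℝ) ^ b := pow_le_pow_left₀ (by norm_num) hy2 b
    have h7 : (w : ℝ) ^ ((4 * C0 + 4 + D) * b) * (1 / (w : ℝ) ^ D) ≤ H * V :=
      mul_le_mul h5 hVlow (by positivity) (Nat.cast_nonneg _)
    have h8 : (w : ℝ) ^ (4 * (C0 * b) + 3) * (w : ℝ) ^ b ≤ (w : ℝ) ^ ((4 * C0 + 4 + D) * b) * (1 / (w : ℝ) ^ D) := by
      rw [mul_one_div, le_div_iff₀ (by positivity), ← pow_add, ← pow_add]
      apply pow_le_pow_right₀ hy1
      nlinarith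
    rw [one_div, inv_pow, ← div_eq_inv_mul, le_div_iff₀ (by positivity)]
    calc (w : ℝ) ^ (4 * (C0 * b) + 3) * 2 ^ b ≤ (w : ℝ) ^ (4 * (C0 * b) + 3) * (w : ℝ) ^ b := by gcongr
      _ ≤ _ := h8.trans h7
  have h5 : |cd - H * V| ≤ 2 * (1 / 2 : ℝ) ^ b * (H * V) := by linarith
  have hVk : 0 < Vz w ^ k := pow_pos hwp k
  have e : (Vz w ^ k)⁻¹ * cd - H * SS f a w = (Vz w ^ k)⁻¹ * (cd - H * V) := by
    rw [hV]
    field_simp
  rw [e, abs_mul, abs_of_pos (inv_pos.2 hVk)]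
  calc (Vz w ^ k)⁻¹ * |cd - H * V| ≤ (Vz w ^ k)⁻¹ * (2 * (1 / 2 : ℝ) ^ b * (H * V)) :=
        mul_le_mul_of_nonneg_left h5 (inv_nonneg.2 hVk.le)
    _ = _ := by rw [hV]; field_simp

end Run7.h882.G
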